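import Pool.Agent.Y234.EM.Top
import Pool.Agent.Y234.EM.Fin
import Pool.Agent.Y232.EM.Pow
import Pool.Agent.TH671.DU.Ex
import Pool.Agent.TH671.DU.Dich
import Mathlib.Algebra.Module.SpanRankOperations

/-!
# Schemes of bounded embedding dimension
-/

set_option autoImplicit false

namespace Pool.Agent.R836.Emb

open scoped TensorProduct PowerSeries
open Pool.Agent.H826R3.SM Pool.Agent.TH671.DU Filter Topology

section local_gen

variable (k : Type) [Field k] [IsAlgClosed k] (B : Type) [CommRing B] [Algebra k B]
  [Module.Finite k B] [IsLocalRing B]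

theorem exists_scalar (y : B) : ∃ c : k, y - algebraMap k B c ∈ IsLocalRing.maximalIdeal B := by
  have hfin : Module.Finite k (IsLocalRing.ResidueField B) :=
    Module.Finite.of_surjective
      (IsScalarTower.toAlgHom k B (IsLocalRing.ResidueField B)).toLinearMap
      IsLocalRing.residue_surjective
  have hb : Function.Bijective (algebraMap k (IsLocalRing.ResidueField B)) :=
    IsAlgClosed.algebraMap_bijective_of_isIntegral
  obtain ⟨c, hc⟩ := hb.2 (IsLocalRing.residue B y)
  refine ⟨c, ?_⟩
  rw [← IsLocalRing.residue_eq_zero_iff, map_sub, ← hc, sub_eq_zero]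
  rfl

theorem step_pow (S : Subalgebra k B) {ι : Type} (a : ι → B) (haS : ∀ i, a i ∈ S)
    (ha : Ideal.span (Set.range a) = IsLocalRing.maximalIdeal B) (n : ℕ) :
    ∀ y ∈ IsLocalRing.maximalIdeal B ^ n, ∃ s ∈ S, s ∈ IsLocalRing.maximalIdeal B ^ n ∧
      y - s ∈ IsLocalRing.maximalIdeal B ^ (n + 1) := by
  set m := IsLocalRing.maximalIdeal B with hm
  induction n with
  | zero =>
    intro y _
    obtain ⟨c, hc⟩ := exists_scalar k B y
    refine ⟨algebraMap k B c, S.algebraMap_mem c, by simp, ?_⟩
    rw [zero_add, pow_one]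
    exact hc
  | succ n ih =>
    have key : ∀ w ∈ m, ∀ u ∈ m ^ n, ∃ s ∈ S, s ∈ m ^ (n + 1) ∧ u * w - s ∈ m ^ (n + 2) := by
      intro w hw
      rw [← ha] at hw
      induction hw using Submodule.span_induction with
      | mem x hx =>
        obtain ⟨i, rfl⟩ := hx
        intro u hu
        obtain ⟨s, hs, hs1, hs2⟩ := ih u hu
        have hai : a i ∈ m := by
          rw [← ha]
          exact Ideal.subset_span ⟨i, rfl⟩
        refine ⟨s * a i, S.mul_mem hs (haS i), ?_, ?_⟩
        · rw [pow_succ]
          exact Ideal.mul_mem_mul hs1 hai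
        · rw [← sub_mul, pow_succ]
          exact Ideal.mul_mem_mul hs2 hai
      | zero =>
        intro u _
        exact ⟨0, S.zero_mem, Ideal.zero_mem _, by simp⟩
      | add x y _ _ hx hy =>
        intro u hu
        obtain ⟨s, hs, hs1, hs2⟩ := hx u hu
        obtain ⟨t, ht, ht1, ht2⟩ := hy u hu
        refine ⟨s + t, S.add_mem hs ht, Ideal.add_mem _ hs1 ht1, ?_⟩
        have : u * (x + y) - (s + t) = (u * x - s) + (u * y - t) := by ring
        rw [this]
        exact Ideal.add_mem _ hs2 ht2
      | smul b x _ hx =>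
        intro u hu
        obtain ⟨s, hs, hs1, hs2⟩ := hx (u * b) (Ideal.mul_mem_right _ _ hu)
        refine ⟨s, hs, hs1, ?_⟩
        rwa [smul_eq_mul, ← mul_assoc]
    intro y hy
    rw [pow_succ] at hy
    induction hy using Submodule.mul_induction_on' with
    | mem_mul_mem u hu w hw => exact key w hw u hu
    | add x _ y _ hx hy =>
      obtain ⟨s, hs, hs1, hs2⟩ := hx
      obtain ⟨t, ht, ht1, ht2⟩ := hy
      refine ⟨s + t, S.add_mem hs ht, Ideal.add_mem _ hs1 ht1, ?_⟩
      have : (x + y) - (s + t) = (x - s) + (y - t) := by ring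
      rw [this]
      exact Ideal.add_mem _ hs2 ht2

/-- a finite local algebra is generated by `edim` elements -/
theorem exists_gen : ∃ a : Fin (Module.finrank (IsLocalRing.ResidueField B)
    (IsLocalRing.CotangentSpace B)) → B, Algebra.adjoin k (Set.range a) = ⊤ := by
  have hart : IsArtinianRing B := IsArtinianRing.of_finite k B
  have hnoeth : IsNoetherianRing B := inferInstance
  have hfg : (IsLocalRing.maximalIdeal B).FG := IsNoetherian.noetherian _
  have h1 := IsLocalRing.spanFinrank_maximalIdeal_eq_finrank_cotangentSpace B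
  obtain ⟨s, hs1, hs2⟩ := Submodule.FG.exists_span_finset_card_eq_spanFinrank
    (p := IsLocalRing.maximalIdeal B) hfg
  rw [← h1, ← hs1]
  let e := s.equivFin
  let a : Fin s.card → B := fun i => (e.symm i : B)
  have hr : Set.range a = (s : Set B) := by
    ext x
    constructor
    · rintro ⟨i, rfl⟩
      exact (e.symm i).2
    · intro hx
      exact ⟨e ⟨x, hx⟩, by simp [a]⟩
  refine ⟨a, ?_⟩
  have ha : Ideal.span (Set.range a) = IsLocalRing.maximalIdeal B := by
    rw [hr]
    exact hs2
  have hnil : IsNilpotent (IsLocalRing.maximalIdeal B) := by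
    have := IsArtinianRing.isNilpotent_jacobson_bot (R := B)
    rwa [IsLocalRing.jacobson_eq_maximalIdeal _ bot_ne_top] at this
  obtain ⟨N, hN⟩ := hnil
  set S := Algebra.adjoin k (Set.range a) with hS
  have hall : ∀ n, ∀ x : B, ∃ t ∈ S, x - t ∈ IsLocalRing.maximalIdeal B ^ n := by
    intro n
    induction n with
    | zero => exact fun x => ⟨0, S.zero_mem, by simp⟩
    | succ n ih =>
      intro x
      obtain ⟨t, ht, hxt⟩ := ih x
      obtain ⟨t', ht', -, h'⟩ := step_pow k B S a
        (fun i => Algebra.subset_adjoin ⟨i, rfl⟩) ha n _ hxt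
      refine ⟨t + t', S.add_mem ht ht', ?_⟩
      rwa [← sub_sub]
  rw [eq_top_iff]
  intro x _
  obtain ⟨t, ht, hxt⟩ := hall N x
  rw [hN, Ideal.zero_eq_bot, Ideal.mem_bot, sub_eq_zero] at hxt
  rwa [hxt]

end local_gen

section pi

variable {k : Type} [Field k]

theorem fam_zero (Y : Type) [CommRing Y] [Algebra k Y] [Subsingleton Y] : Fam k Y 0 := by
  let π : PUnit.{1} →+* Y :=
    { toFun := fun _ => 0
      map_one' := Subsingleton.elim _ _
      map_zero' := rfl
      map_mul' := fun _ _ => Subsingleton.elim _ _
      map_add' := fun _ _ => Subsingleton.elim _ _ }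
  have hsub : Subsingleton (LL k ⊗[k⟦X⟧] PUnit.{1}) := by
    refine ⟨fun x y => ?_⟩
    have h0 : ∀ z : LL k ⊗[k⟦X⟧] PUnit.{1}, z = 0 := by
      intro z
      induction z using TensorProduct.induction_on with
      | zero => rfl
      | tmul a b => rw [Subsingleton.elim b 0, TensorProduct.tmul_zero]
      | add a b ha hb => rw [ha, hb, add_zero]
    rw [h0 x, h0 y]
  refine ⟨PUnit.{1}, inferInstance, inferInstance, inferInstance, inferInstance,
    ⟨fun x _ => Subsingleton.elim _ _⟩, ?_, π, fun y => ⟨PUnit.unit, Subsingleton.elim _ _⟩,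
    fun c => Subsingleton.elim _ _⟩
  rw [Module.finrank_zero_of_subsingleton]

theorem fam_pi (l : ℕ) : ∀ (B : Fin l → Type) [∀ i, CommRing (B i)] [∀ i, Algebra k (B i)]
    (D : Fin l → ℕ), (∀ i, Fam k (B i) (D i)) → Fam k (∀ i, B i) (∑ i, D i) := by
  induction l with
  | zero =>
    intro B _ _ D _
    simpa using fam_zero (k := k) (∀ i, B i)
  | succ l ih =>
    intro B _ _ D h
    rw [Fin.sum_univ_succ]
    have h1 := (h 0).prod (ih (fun i => B i.succ) (fun i => D i.succ) fun i => h i.succ)
    let f : (B 0 × ∀ i : Fin l, B i.succ) →ₐ[k] (∀ i, B i) :=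
      { toFun := fun p => Fin.cons p.1 p.2
        map_one' := by
          funext i
          refine Fin.cases rfl (fun i => rfl) i
        map_zero' := by
          funext i
          refine Fin.cases rfl (fun i => rfl) i
        map_mul' := fun x y => by
          funext i
          refine Fin.cases rfl (fun i => rfl) i
        map_add' := fun x y => by
          funext i
          refine Fin.cases rfl (fun i => rfl) i
        commutes' := fun c => by
          funext i
          refine Fin.cases rfl (fun i => rfl) i }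
    refine h1.of_surjective f fun g => ⟨(g 0, fun i => g i.succ), ?_⟩
    funext i
    refine Fin.cases rfl (fun i => rfl) i

theorem fam_pi' {ι : Type} [Fintype ι] (B : ι → Type) [∀ i, CommRing (B i)]
    [∀ i, Algebra k (B i)] (D : ι → ℕ) (h : ∀ i, Fam k (B i) (D i)) :
    Fam k (∀ i, B i) (∑ i, D i) := by
  let e := (Fintype.equivFin ι).symm
  have h1 := fam_pi (k := k) (Fintype.card ι) (fun j => B (e j)) (fun j => D (e j))
    fun j => h (e j)
  rw [e.sum_comp D] at h1
  exact h1.of_surjective (AlgEquiv.piCongrLeft k B e).toAlgHom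
    (AlgEquiv.piCongrLeft k B e).surjective

end pi

/-- The embedding dimension of a local ring: the dimension of the cotangent space over the residue
field. -/
noncomputable def edim (B : Type) [CommRing B] [IsLocalRing B] : ℕ :=
  Module.finrank (IsLocalRing.ResidueField B) (IsLocalRing.CotangentSpace B)

/-- The sum over the points of `Spec A` of `v! * l`, where `v` is the embedding dimension and `l`
the length of the local ring at the point. -/
noncomputable def lechSum (k A : Type) [Field k] [CommRing A] [Algebra k A] : ℕ :=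
  ∑ᶠ p : PrimeSpectrum A, (edim (Localization.AtPrime p.asIdeal)).factorial *
    Module.finrank k (Localization.AtPrime p.asIdeal)

section general

variable (k : Type) [Field k] [IsAlgClosed k] (A : Type) [CommRing A] [Algebra k A]
  [Module.Finite k A]

/-- a finite algebra is the product of its localizations -/
theorem exists_pi : ∃ e : A ≃ₐ[k] (∀ p : PrimeSpectrum A, Localization.AtPrime p.asIdeal),
    ∀ x p, e x p = algebraMap A (Localization.AtPrime p.asIdeal) x := by
  have hart : IsArtinianRing A := IsArtinianRing.of_finite k A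
  let e0 := PrimeSpectrum.toPiLocalizationEquiv (R := A)
  refine ⟨AlgEquiv.restrictScalars k e0, fun x p => ?_⟩
  rfl

theorem finite_loc (p : PrimeSpectrum A) : Module.Finite k (Localization.AtPrime p.asIdeal) := by
  classical
  obtain ⟨e, he⟩ := exists_pi k A
  refine Module.Finite.of_surjective
    (IsScalarTower.toAlgHom k A (Localization.AtPrime p.asIdeal)).toLinearMap fun y => ?_
  obtain ⟨x, hx⟩ := e.surjective (Pi.single p y)
  refine ⟨x, ?_⟩
  have := congrFun hx p
  rw [he] at this
  simpa using this

theorem fam_lechSum : Fam k A (lechSum k A) := by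
  classical
  have hart : IsArtinianRing A := IsArtinianRing.of_finite k A
  have hfin : Finite (PrimeSpectrum A) := inferInstance
  have : Fintype (PrimeSpectrum A) := Fintype.ofFinite _
  obtain ⟨e, -⟩ := exists_pi k A
  unfold lechSum
  rw [finsum_eq_sum_of_fintype]
  have h1 := fam_pi' (k := k) (fun p : PrimeSpectrum A => Localization.AtPrime p.asIdeal)
    (fun p => (edim (Localization.AtPrime p.asIdeal)).factorial *
      Module.finrank k (Localization.AtPrime p.asIdeal)) (fun p => by
      have := finite_loc k A p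
      obtain ⟨a, ha⟩ := exists_gen k (Localization.AtPrime p.asIdeal)
      exact Pool.Agent.Y234.EM.fixed_fam Pool.Agent.Y234.EM.main_ k _ _ a ha)
  exact h1.of_surjective e.symm.toAlgHom e.symm.surjective

theorem sum_length : ∑ᶠ p : PrimeSpectrum A, Module.finrank k (Localization.AtPrime p.asIdeal) =
    Module.finrank k A := by
  classical
  have hart : IsArtinianRing A := IsArtinianRing.of_finite k A
  have hfin : Finite (PrimeSpectrum A) := inferInstance
  have : Fintype (PrimeSpectrum A) := Fintype.ofFinite _
  obtain ⟨e, -⟩ := exists_pi k A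
  have := fun p => finite_loc k A p
  rw [finsum_eq_sum_of_fintype, e.toLinearEquiv.finrank_eq, Module.finrank_pi_fintype]

theorem lechSum_le (v : ℕ) (h : ∀ p : PrimeSpectrum A,
    edim (Localization.AtPrime p.asIdeal) ≤ v) :
    lechSum k A ≤ v.factorial * Module.finrank k A := by
  classical
  have hart : IsArtinianRing A := IsArtinianRing.of_finite k A
  have hfin : Finite (PrimeSpectrum A) := inferInstance
  have : Fintype (PrimeSpectrum A) := Fintype.ofFinite _
  rw [← sum_length k A]
  unfold lechSum
  rw [finsum_eq_sum_of_fintype, finsum_eq_sum_of_fintype, Finset.mul_sum]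
  exact Finset.sum_le_sum fun p _ => Nat.mul_le_mul_right _ (Nat.factorial_le (h p))

theorem pow_bound (n : ℕ) : Module.finrank k A ^ n + defect k (Pow k A n) ≤
    lechSum k A ^ n := by
  have h := Pool.Agent.Y234.EM.add_defect_le (Pool.Agent.Y232.EM.pow k A _ n (fam_lechSum k A))
  rwa [finrank_Pow] at h

theorem rate_le_lechSum [Nontrivial A] : rate k A ≤ lechSum k A := by
  have hF := fam_lechSum k A
  have hpos : (0 : ℝ) < lechSum k A := by
    have h1 := Pool.Agent.Y234.EM.Fam.dim_le hF
    have h2 : 0 < Module.finrank k A := Module.finrank_pos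
    exact_mod_cast lt_of_lt_of_le h2 h1
  refine rate_le_of_growth hpos ⟨1, zero_le_one, fun n => ⟨lechSum k A ^ n, ?_,
    Pool.Agent.Y232.EM.pow k A _ n hF⟩⟩
  push_cast
  rw [one_mul]

end general

section tensor

variable {k : Type} [Field k] (A B : Type) [CommRing A] [Algebra k A] [CommRing B] [Algebra k B]

theorem fam_pow_tensor {D E n : ℕ} (hA : Fam k (Pow k A n) D) (hB : Fam k (Pow k B n) E) :
    Fam k (Pow k (A ⊗[k] B) n) (D * E) := by
  refine Fam.join hA hB
    (powLift fun i => (sg k (A ⊗[k] B) i).comp Algebra.TensorProduct.includeLeft)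
    (powLift fun i => (sg k (A ⊗[k] B) i).comp Algebra.TensorProduct.includeRight) ?_
  refine pow_eq_top _ fun i x => ?_
  induction x using TensorProduct.induction_on with
  | zero =>
    rw [map_zero]
    exact Subalgebra.zero_mem _
  | tmul a b =>
    have : a ⊗ₜ[k] b = (a ⊗ₜ[k] (1 : B)) * ((1 : A) ⊗ₜ[k] b) := by
      rw [Algebra.TensorProduct.tmul_mul_tmul, mul_one, one_mul]
    rw [this, map_mul]
    refine Subalgebra.mul_mem _ ?_ ?_
    · exact (le_sup_left : (powLift fun i => (sg k (A ⊗[k] B) i).comp
        Algebra.TensorProduct.includeLeft).range ≤ _) ⟨sg k A i a, powLift_single _ i a⟩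
    · exact (le_sup_right : (powLift fun i => (sg k (A ⊗[k] B) i).comp
        Algebra.TensorProduct.includeRight).range ≤ _) ⟨sg k B i b, powLift_single _ i b⟩
  | add x y hx hy =>
    rw [map_add]
    exact Subalgebra.add_mem _ hx hy

end tensor

section rates

variable {k : Type} [Field k] [IsAlgClosed k] (A B : Type) [CommRing A] [Algebra k A]
  [Module.Finite k A] [Nontrivial A] [CommRing B] [Algebra k B] [Module.Finite k B] [Nontrivial B]

theorem rate_tensor_le : rate k (A ⊗[k] B) ≤ rate k A * rate k B := by
  have hn : Nontrivial (A ⊗[k] B) := by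
    have h1 : 0 < Module.finrank k (A ⊗[k] B) := by
      rw [Module.finrank_tensorProduct]
      exact Nat.mul_pos Module.finrank_pos Module.finrank_pos
    exact Module.nontrivial_of_finrank_pos h1
  have hA1 := one_le_rate (k := k) A
  have hB1 := one_le_rate (k := k) B
  have key : ∀ η : ℝ, 0 < η → rate k (A ⊗[k] B) ≤ (rate k A + η) * (rate k B + η) := by
    intro η hη
    obtain ⟨C, hC, hG⟩ := growth_of_rate (k := k) A η hη
    obtain ⟨C', hC', hG'⟩ := growth_of_rate (k := k) B η hη
    refine rate_le_of_growth (by positivity) ⟨C * C', by positivity, fun n => ?_⟩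
    obtain ⟨D, h1, h2⟩ := hG n
    obtain ⟨E, h3, h4⟩ := hG' n
    refine ⟨D * E, ?_, fam_pow_tensor A B h2 h4⟩
    push_cast
    calc (D : ℝ) * E ≤ (C * (rate k A + η) ^ n) * (C' * (rate k B + η) ^ n) := by
          refine mul_le_mul h1 h3 (by positivity) (by positivity)
      _ = C * C' * ((rate k A + η) * (rate k B + η)) ^ n := by
          rw [mul_pow]
          ring
  have hlim : Tendsto (fun η : ℝ => (rate k A + η) * (rate k B + η)) (𝓝[>] 0)
      (𝓝 (rate k A * rate k B)) := by
    have : Tendsto (fun η : ℝ => (rate k A + η) * (rate k B + η)) (𝓝 0)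
        (𝓝 ((rate k A + 0) * (rate k B + 0))) := by
      apply Continuous.tendsto
      fun_prop
    rw [add_zero, add_zero] at this
    exact this.mono_left nhdsWithin_le_nhds
  refine ge_of_tendsto hlim ?_
  filter_upwards [self_mem_nhdsWithin] with η hη
  exact key η hη

theorem lim_of_rate {ε : ℝ} (hε : rate k A < (Module.finrank k A : ℝ) ^ (1 + ε)) :
    Tendsto (fun n : ℕ => (defect k (Pow k A n) : ℝ) /
      (Module.finrank k A : ℝ) ^ ((1 + ε) * (n : ℝ))) atTop (𝓝 0) := by
  set x := (Module.finrank k A : ℝ) ^ (1 + ε) with hx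
  have h1 := one_le_rate (k := k) A
  set η := (x - rate k A) / 2 with hη
  have hη0 : 0 < η := by rw [hη]; linarith
  obtain ⟨C, hC⟩ := rate_upper (k := k) A η hη0
  have hq : (rate k A + η) / x < 1 := by
    rw [div_lt_one (by linarith)]
    rw [hη]
    linarith
  have hq0 : 0 ≤ (rate k A + η) / x := by
    have : 0 < x := by linarith
    positivity
  have hlim : Tendsto (fun n : ℕ => C * ((rate k A + η) / x) ^ n) atTop (𝓝 0) := by
    have := (tendsto_pow_atTop_nhds_zero_of_lt_one hq0 hq).const_mul C
    rwa [mul_zero] at this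
  refine squeeze_zero (fun n => by positivity) (fun n => ?_) hlim
  rw [denom_eq', ← hx, div_pow, ← mul_div_assoc]
  refine div_le_div_of_nonneg_right ?_ (by
    have : 0 < x := by linarith
    positivity)
  have h2 := hC n
  have h3 : (0 : ℝ) ≤ (Module.finrank k A : ℝ) ^ n := by positivity
  linarith

end rates

end Pool.Agent.R836.Emb
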