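import Mathlib
import Pool.Agent.Helper226.LociPts

set_option autoImplicit false

open scoped TensorProduct
open CategoryTheory AlgebraicGeometry

universe u

namespace Pool.Agent.R836.Elem

open Pool.Agent.Helper226

section rank

variable {k : Type u} [Field k] {K : Type u} [Field K] [Algebra k K]

/-- the transcendence degree over `k` of the field generated by a set -/
noncomputable def rk (k : Type u) [Field k] {K : Type u} [Field K] [Algebra k K] (s : Set K) :
    ℕ∞ :=
  (AlgebraicIndependent.matroid k K).eRk s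

lemma rk_mono {s t : Set K} (h : s ⊆ t) : rk k s ≤ rk k t :=
  (AlgebraicIndependent.matroid k K).eRk_mono h

lemma rk_union (s t : Set K) : rk k (s ∪ t) ≤ rk k s + rk k t :=
  (AlgebraicIndependent.matroid k K).eRk_union_le_eRk_add_eRk s t

lemma rk_le_encard (s : Set K) : rk k s ≤ s.encard :=
  (AlgebraicIndependent.matroid k K).eRk_le_encard s

lemma rk_le_of_algebraic {s t : Set K} (h : ∀ z ∈ s, IsAlgebraic (Algebra.adjoin k t) z) :
    rk k s ≤ rk k t := by
  have h2 : s ⊆ (AlgebraicIndependent.matroid k K).closure t := by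
    rw [AlgebraicIndependent.matroid_closure_eq]
    intro z hz
    exact h z hz
  have h3 := (AlgebraicIndependent.matroid k K).eRk_mono h2
  rwa [Matroid.eRk_closure_eq] at h3

/-- the elements algebraic over the field generated by a set -/
def Lf (k : Type u) [Field k] {K : Type u} [Field K] [Algebra k K] (s : Set K) : Subfield K where
  carrier := {z | IsAlgebraic (Algebra.adjoin k s) z}
  mul_mem' := fun ha hb => ha.mul hb
  one_mem' := isAlgebraic_one
  add_mem' := fun ha hb => ha.add hb
  zero_mem' := isAlgebraic_zero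
  neg_mem' := fun ha => ha.neg
  inv_mem' := fun _ ha => ha.inv

lemma Lf_of_mem {s : Set K} {z : K} (h : z ∈ s) : z ∈ Lf k s :=
  isAlgebraic_algebraMap (⟨z, Algebra.subset_adjoin h⟩ : Algebra.adjoin k s)

lemma Lf_of_adjoin {s : Set K} {z : K} (h : z ∈ Algebra.adjoin k s) : z ∈ Lf k s :=
  isAlgebraic_algebraMap (⟨z, h⟩ : Algebra.adjoin k s)

lemma rk_le_of_Lf {s t : Set K} (h : s ⊆ Lf k t) : rk k s ≤ rk k t :=
  rk_le_of_algebraic fun z hz => h hz

lemma card_le_rk {ι : Type*} [Fintype ι] (x : ι → K) (hx : AlgebraicIndependent k x) (s : Set K)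
    (h : ∀ i, x i ∈ s) : (Fintype.card ι : ℕ∞) ≤ rk k s := by
  have h1 : (AlgebraicIndependent.matroid k K).Indep (Set.range x) := by
    rw [AlgebraicIndependent.matroid_indep_iff]
    exact hx.to_subtype_range
  have h5 : (Set.range x).encard = Fintype.card ι := by
    rw [← Set.image_univ, hx.injective.encard_image, Set.encard_univ, ENat.card_eq_coe_fintype_card]
  rw [← h5, ← h1.eRk_eq_encard]
  exact rk_mono (by rintro _ ⟨i, rfl⟩; exact h i)

/-- the transcendence degree can only drop under specialization -/
lemma rk_specialize {A : Type u} [CommRing A] [Algebra k A] {L : Type u} [Field L] [Algebra k L]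
    (φ : A →ₐ[k] L) (ψ : A →ₐ[k] K) (h : RingHom.ker φ ≤ RingHom.ker ψ) (S : Set A) :
    rk k (ψ '' S) ≤ rk k (φ '' S) := by
  classical
  obtain ⟨I, hI⟩ := (AlgebraicIndependent.matroid k K).exists_isBasis' (ψ '' S)
  have h1 : rk k (ψ '' S) = I.encard := hI.encard_eq_eRk.symm
  have h2 : AlgebraicIndependent k (fun z : I => (z : K)) := by
    have := hI.indep
    rwa [AlgebraicIndependent.matroid_indep_iff] at this
  choose g hg1 hg2 using fun z : I => hI.subset z.2
  have h3 : AlgebraicIndependent k (fun z : I => φ (g z)) := by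
    rw [algebraicIndependent_iff] at h2 ⊢
    intro P hP
    apply h2 P
    have h4 : MvPolynomial.aeval (fun z : I => φ (g z)) P = φ (MvPolynomial.aeval g P) := by
      have := MvPolynomial.comp_aeval g φ
      rw [← this]
      rfl
    have h5 : MvPolynomial.aeval (fun z : I => ψ (g z)) P = ψ (MvPolynomial.aeval g P) := by
      have := MvPolynomial.comp_aeval g ψ
      rw [← this]
      rfl
    rw [h4] at hP
    have h6 : MvPolynomial.aeval g P ∈ RingHom.ker ψ := h hP
    have h7 : (fun z : I => (z : K)) = fun z : I => ψ (g z) := by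
      funext z
      exact (hg2 z).symm
    rw [h7, h5]
    exact h6
  have h8 : (AlgebraicIndependent.matroid k L).Indep (Set.range fun z : I => φ (g z)) := by
    rw [AlgebraicIndependent.matroid_indep_iff]
    exact h3.to_subtype_range
  have h9 : (Set.range fun z : I => φ (g z)).encard = I.encard := by
    rw [← Set.image_univ, h3.injective.encard_image, Set.encard_univ]
    rfl
  rw [h1, ← h9, ← h8.eRk_eq_encard]
  apply rk_mono
  rintro _ ⟨z, rfl⟩
  exact ⟨g z, hg1 z, rfl⟩

end rank

section charts

variable {k : Type u} [Field k] {B : Type u} [CommRing B] [Algebra k B] {d : ℕ}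
variable {K : Type u} [Field K] [Algebra k K]

/-- the set of the values of the coordinate functional -/
def vals {b : Fin d → B} {R : Type u} [CommRing R] [Algebra k R] (c : Chart k b R) : Set R :=
  {z | ∃ x j, c.q x j = z}

lemma vals_map {b : Fin d → B} {R R' : Type u} [CommRing R] [Algebra k R] [CommRing R']
    [Algebra k R'] (c : Chart k b R) (φ : R →ₐ[k] R') : vals (c.map φ) = φ '' vals c := by
  ext z
  constructor
  · rintro ⟨x, j, rfl⟩
    exact ⟨_, ⟨x, j, rfl⟩, rfl⟩
  · rintro ⟨_, ⟨x, j, rfl⟩, rfl⟩
    exact ⟨x, j, rfl⟩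

lemma q_mem_Lf {b : Fin d → B} (c : Chart k b K) {s : Set K} (h : vals c ⊆ s) (x : B) (j : Fin d) :
    c.q x j ∈ Lf k s := Lf_of_mem (h ⟨x, j, rfl⟩)

/-- an ideal which is the intersection of two ideals is defined over the compositum of the fields
of definition -/
lemma rk_inf_le {d' d'' : ℕ} {b : Fin d → B} {b' : Fin d' → B} {b'' : Fin d'' → B}
    (c : Chart k b K) (c' : Chart k b' K) (c'' : Chart k b'' K) (hd : d' + d'' = d)
    (h : c.ideal = c'.ideal ⊓ c''.ideal) :
    rk k (vals c) ≤ rk k (vals c') + rk k (vals c'') := by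
  subst hd
  refine (rk_le_of_Lf ?_).trans (rk_union (k := k) (vals c') (vals c''))
  set F := Lf k (vals c' ∪ vals c'') with hF
  -- the two coordinate functionals together
  let Q : B → (Fin d' ⊕ Fin d'' → K) := fun x => Sum.elim (c'.q x) (c''.q x)
  have hQF : ∀ x i, Q x i ∈ F := by
    intro x i
    rcases i with i | i
    · exact q_mem_Lf c' Set.subset_union_left x i
    · exact q_mem_Lf c'' Set.subset_union_right x i
  have key : ∀ y : K ⊗[k] B, c.L y = 0 ↔ c'.L y = 0 ∧ c''.L y = 0 := by
    intro y
    rw [← Chart.mem_ideal, h, Ideal.mem_inf, Chart.mem_ideal, Chart.mem_ideal]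
  have hexp : ∀ x i, Q x i = ∑ j, c.q x j * Q (b j) i := by
    intro x i
    have h1 : c.L ((1 : K) ⊗ₜ[k] x - Chart.expand K b (c.L (1 ⊗ₜ x))) = 0 := c.sub_expand_mem _
    rw [key] at h1
    obtain ⟨h2, h3⟩ := h1
    rw [Chart.expand_apply, map_sub, map_sum, sub_eq_zero] at h2 h3
    rcases i with i | i
    · have := congrFun h2 i
      simpa [Q] using this
    · have := congrFun h3 i
      simpa [Q] using this
  let T : Matrix (Fin (d' + d'')) (Fin d' ⊕ Fin d'') K := Matrix.of fun j i => Q (b j) i
  let T' : Matrix (Fin (d' + d'')) (Fin (d' + d'')) K := T.submatrix id finSumFinEquiv.symm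
  have hT' : IsUnit T'.det := by
    rw [isUnit_iff_ne_zero]
    intro h0
    obtain ⟨v, hv0, hv⟩ := Matrix.exists_vecMul_eq_zero_iff.2 h0
    apply hv0
    have h1 : c.L (Chart.expand K b v) = 0 := by
      rw [key]
      constructor
      · ext i
        have := congrFun hv (finSumFinEquiv (Sum.inl i))
        simp only [Matrix.vecMul, dotProduct, T', T, Matrix.submatrix_apply, id, Matrix.of_apply,
          Equiv.symm_apply_apply, Q, Sum.elim_inl, Pi.zero_apply] at this
        rw [Chart.expand_apply, map_sum]
        simpa using this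
      · ext i
        have := congrFun hv (finSumFinEquiv (Sum.inr i))
        simp only [Matrix.vecMul, dotProduct, T', T, Matrix.submatrix_apply, id, Matrix.of_apply,
          Equiv.symm_apply_apply, Q, Sum.elim_inr, Pi.zero_apply] at this
        rw [Chart.expand_apply, map_sum]
        simpa using this
    rwa [Chart.L_expand] at h1
  -- the matrix has entries in the field
  let TF : Matrix (Fin (d' + d'')) (Fin (d' + d'')) F :=
    Matrix.of fun j i => ⟨T' j i, hQF _ _⟩
  have hTF : TF.map F.subtype = T' := by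
    ext j i
    rfl
  have hdet : IsUnit TF.det := by
    rw [isUnit_iff_ne_zero]
    intro h0
    have h1 : F.subtype TF.det = T'.det := by
      rw [RingHom.map_det]
      congr 1
    rw [h0, map_zero] at h1
    exact hT'.ne_zero h1.symm
  rintro z ⟨x, j, rfl⟩
  let w : Fin (d' + d'') → F := fun i => ⟨Q x (finSumFinEquiv.symm i), hQF _ _⟩
  have h2 : Matrix.vecMul (c.q x) T' = fun i => Q x (finSumFinEquiv.symm i) := by
    ext i
    simp only [Matrix.vecMul, dotProduct, T', T, Matrix.submatrix_apply, id, Matrix.of_apply]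
    exact (hexp x _).symm
  have h3 : c.q x = fun i => F.subtype (Matrix.vecMul w TF⁻¹ i) := by
    have h4 : Matrix.vecMul (fun i => F.subtype (Matrix.vecMul w TF⁻¹ i)) T' =
        fun i => Q x (finSumFinEquiv.symm i) := by
      have h5 : Matrix.vecMul (Matrix.vecMul w TF⁻¹) TF = w := by
        rw [Matrix.vecMul_vecMul, Matrix.nonsing_inv_mul _ hdet, Matrix.vecMul_one]
      ext i
      have h6 := congrArg F.subtype (congrFun h5 i)
      have h7 : F.subtype (w i) = Q x (finSumFinEquiv.symm i) := rfl
      rw [h7] at h6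
      rw [← h6]
      simp only [Matrix.vecMul, dotProduct, map_sum, map_mul]
      rfl
    have h8 : Matrix.vecMul (c.q x) T' =
        Matrix.vecMul (fun i => F.subtype (Matrix.vecMul w TF⁻¹ i)) T' := by rw [h2, h4]
    have h9 := congrArg (fun v => Matrix.vecMul v T'⁻¹) h8
    simpa only [Matrix.vecMul_vecMul, Matrix.mul_nonsing_inv _ hT', Matrix.vecMul_one] using h9
  rw [h3]
  exact (Matrix.vecMul w TF⁻¹ j).2

end charts

end Pool.Agent.R836.Elem
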