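import Mathlib
import Pool.Agent.R836.Elem1

set_option autoImplicit false

open scoped TensorProduct
open CategoryTheory AlgebraicGeometry

universe u

namespace Pool.Agent.R836.Elem

open Pool.Agent.Helper226

section split

variable {k : Type u} [Field k] {B : Type u} [CommRing B] [Algebra k B] {d : ℕ}
variable {K : Type u} [Field K] [Algebra k K]

/-- every ideal of finite colength has a chart -/
lemma exists_chart (I : Ideal (K ⊗[k] B)) [Module.Finite K ((K ⊗[k] B) ⧸ I)] :
    ∃ (b : Fin (Module.finrank K ((K ⊗[k] B) ⧸ I)) → B) (c : Chart k b K), c.ideal = I := by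
  have hfp : Module.FinitePresentation K ((K ⊗[k] B) ⧸ I) := Module.finitePresentation_of_finite _ _
  obtain ⟨κ, a, bs, hbs⟩ := Module.exists_basis_of_span_of_flat
    (fun x : B => Ideal.Quotient.mk I ((1 : K) ⊗ₜ[k] x)) (span_range_v (k := k) (B := B) I)
  have hfin : Finite κ := Module.Finite.finite_basis bs
  have : Fintype κ := Fintype.ofFinite κ
  have hcard : Fintype.card κ = Module.finrank K ((K ⊗[k] B) ⧸ I) := by
    rw [Module.finrank_eq_card_basis bs]
  let e : Fin (Module.finrank K ((K ⊗[k] B) ⧸ I)) ≃ κ := (Fintype.equivFinOfCardEq hcard).symm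
  refine ⟨fun i => a (e i), ?_⟩
  have hb : IsBas (fun i => a (e i)) I := by
    apply isBas_of_bijective
    have : gen I (fun i => a (e i)) = ((bs.reindex e.symm).equivFun.symm.toLinearMap) := by
      apply LinearMap.ext
      intro v
      rw [gen, LinearMap.comp_apply, Chart.expand_apply, map_sum]
      rw [LinearEquiv.coe_coe, Module.Basis.equivFun_symm_apply]
      refine Finset.sum_congr rfl fun i _ => ?_
      rw [Module.Basis.reindex_apply, Equiv.symm_symm, hbs]
      have h1 : (v i) ⊗ₜ[k] a (e i) = v i • ((1 : K) ⊗ₜ[k] a (e i)) := by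
        rw [TensorProduct.smul_tmul', smul_eq_mul, mul_one]
      rw [h1, map_smul]
      rfl
    rw [this]
    exact (bs.reindex e.symm).equivFun.symm.bijective
  exact hb

lemma finrank_chart {b : Fin d → B} (c : Chart k b K) :
    Module.Finite K ((K ⊗[k] B) ⧸ c.ideal) ∧ Module.finrank K ((K ⊗[k] B) ⧸ c.ideal) = d := by
  have h := gen_bijective (⟨c, rfl⟩ : IsBas b c.ideal)
  let e : (Fin d → K) ≃ₗ[K] ((K ⊗[k] B) ⧸ c.ideal) := LinearEquiv.ofBijective _ h
  refine ⟨Module.Finite.equiv e, ?_⟩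
  rw [← e.finrank_eq]
  simp

/-- a finite algebra over a field which is not local is a product -/
lemma exists_compl {R : Type u} [CommRing R] [Algebra K R] [Module.Finite K R] [Nontrivial R]
    (h : ¬ IsLocalRing R) : ∃ I J : Ideal R, I ⊓ J = ⊥ ∧ I ≠ ⊤ ∧ J ≠ ⊤ ∧
      Module.finrank K (R ⧸ I) + Module.finrank K (R ⧸ J) = Module.finrank K R := by
  have h1 : ∃ x : R, ¬ IsUnit x ∧ ¬ IsUnit (1 - x) := by
    by_contra hcon
    push Not at hcon
    apply h
    exact IsLocalRing.of_isUnit_or_isUnit_one_sub_self fun a => by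
      by_cases ha : IsUnit a
      · exact Or.inl ha
      · exact Or.inr (hcon a ha)
  obtain ⟨x, hx, hx'⟩ := h1
  have hN : IsNoetherian K R := inferInstance
  obtain ⟨N, hN⟩ := (LinearMap.mulLeft K x).eventually_isCompl_ker_pow_range_pow.exists_forall_of_atTop
  have hc := hN (N + 1) (by omega)
  have hpow : (LinearMap.mulLeft K x) ^ (N + 1) = LinearMap.mulLeft K (x ^ (N + 1)) := by
    rw [LinearMap.pow_mulLeft]
  rw [hpow] at hc
  let I : Ideal R := Ideal.span {x ^ (N + 1)}
  let J : Ideal R := LinearMap.ker (LinearMap.mulLeft R (x ^ (N + 1)))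
  have hI : ∀ y, y ∈ I ↔ y ∈ LinearMap.range (LinearMap.mulLeft K (x ^ (N + 1))) := by
    intro y
    rw [Ideal.mem_span_singleton']
    constructor
    · rintro ⟨a, rfl⟩
      exact ⟨a, by simp [mul_comm]⟩
    · rintro ⟨a, rfl⟩
      exact ⟨a, by simp [mul_comm]⟩
  have hJ : ∀ y, y ∈ J ↔ y ∈ LinearMap.ker (LinearMap.mulLeft K (x ^ (N + 1))) := by
    intro y
    rfl
  have hIJ : I ⊓ J = ⊥ := by
    rw [eq_bot_iff]
    intro y hy
    have h2 := hc.disjoint
    rw [Submodule.disjoint_def] at h2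
    exact h2 y ((hJ y).1 hy.2) ((hI y).1 hy.1)
  refine ⟨I, J, hIJ, ?_, ?_, ?_⟩
  · intro htop
    have : (1 : R) ∈ I := by rw [htop]; trivial
    rw [Ideal.mem_span_singleton'] at this
    obtain ⟨a, ha⟩ := this
    apply hx
    rw [pow_succ, ← mul_assoc] at ha
    exact IsUnit.of_mul_eq_one _ ((mul_comm x (a * x ^ N)).trans ha)
  · intro htop
    have : (1 : R) ∈ J := by rw [htop]; trivial
    have h2 : x ^ (N + 1) = 0 := by
      have h3 := (hJ 1).1 this
      rw [LinearMap.mem_ker, LinearMap.mulLeft_apply, mul_one] at h3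
      exact h3
    apply hx'
    exact IsNilpotent.isUnit_one_sub ⟨N + 1, h2⟩
  · have e1 : Module.finrank K (R ⧸ I) + Module.finrank K
        (LinearMap.range (LinearMap.mulLeft K (x ^ (N + 1)))) = Module.finrank K R := by
      have h3 : I.restrictScalars K = LinearMap.range (LinearMap.mulLeft K (x ^ (N + 1))) := by
        ext y
        exact hI y
      have h4 := Submodule.finrank_quotient_add_finrank (I.restrictScalars K)
      rw [h3] at h4
      rw [← h4]
      congr 1
      rw [← h3]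
      rfl
    have e2 : Module.finrank K (R ⧸ J) + Module.finrank K
        (LinearMap.ker (LinearMap.mulLeft K (x ^ (N + 1)))) = Module.finrank K R := by
      have h3 : J.restrictScalars K = LinearMap.ker (LinearMap.mulLeft K (x ^ (N + 1))) := by
        ext y
        exact hJ y
      have h4 := Submodule.finrank_quotient_add_finrank (J.restrictScalars K)
      rw [h3] at h4
      rw [← h4]
      congr 1
    have e3 := (LinearMap.mulLeft K (x ^ (N + 1))).finrank_range_add_finrank_ker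
    omega

/-- a chart whose algebra is not local is the intersection of two smaller ones -/
lemma exists_decomp {b : Fin d → B} (c : Chart k b K)
    (hn : Nontrivial ((K ⊗[k] B) ⧸ c.ideal))
    (h : ¬ IsLocalRing ((K ⊗[k] B) ⧸ c.ideal)) :
    ∃ (d' d'' : ℕ) (b' : Fin d' → B) (b'' : Fin d'' → B) (c' : Chart k b' K) (c'' : Chart k b'' K),
      1 ≤ d' ∧ 1 ≤ d'' ∧ d' + d'' = d ∧ c.ideal = c'.ideal ⊓ c''.ideal := by
  obtain ⟨hfin, hrank⟩ := finrank_chart c
  obtain ⟨I, J, hIJ, hI, hJ, hsum⟩ := exists_compl (K := K) h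
  let π : K ⊗[k] B →ₐ[K] ((K ⊗[k] B) ⧸ c.ideal) := Ideal.Quotient.mkₐ K c.ideal
  have hπ : Function.Surjective π := Ideal.Quotient.mk_surjective
  have key : ∀ I : Ideal ((K ⊗[k] B) ⧸ c.ideal), I ≠ ⊤ →
      ∃ (_ : Module.Finite K ((K ⊗[k] B) ⧸ I.comap π)),
      Module.finrank K ((K ⊗[k] B) ⧸ I.comap π) = Module.finrank K (((K ⊗[k] B) ⧸ c.ideal) ⧸ I) ∧
      1 ≤ Module.finrank K ((K ⊗[k] B) ⧸ I.comap π) := by
    intro I hI
    let ψ : K ⊗[k] B →ₐ[K] (((K ⊗[k] B) ⧸ c.ideal) ⧸ I) := (Ideal.Quotient.mkₐ K I).comp π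
    have hψ : Function.Surjective ψ :=
      (Ideal.Quotient.mkₐ_surjective K I).comp hπ
    have hker : RingHom.ker ψ = I.comap π := by
      ext y
      rw [RingHom.mem_ker, Ideal.mem_comap]
      exact Ideal.Quotient.eq_zero_iff_mem
    let e1 := Ideal.quotientKerAlgEquivOfSurjective hψ
    let e2 : ((K ⊗[k] B) ⧸ RingHom.ker ψ) ≃ₐ[K] ((K ⊗[k] B) ⧸ I.comap π) :=
      Ideal.quotientEquivAlgOfEq K hker
    have hnt : Nontrivial (((K ⊗[k] B) ⧸ c.ideal) ⧸ I) := Ideal.Quotient.nontrivial_iff.2 hI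
    have hf : Module.Finite K ((K ⊗[k] B) ⧸ I.comap π) :=
      Module.Finite.equiv (e1.symm.trans e2).toLinearEquiv
    have heq : Module.finrank K ((K ⊗[k] B) ⧸ I.comap π) =
        Module.finrank K (((K ⊗[k] B) ⧸ c.ideal) ⧸ I) :=
      ((e1.symm.trans e2).toLinearEquiv.finrank_eq).symm
    refine ⟨hf, heq, ?_⟩
    rw [heq]
    exact Nat.succ_le_of_lt Module.finrank_pos
  obtain ⟨f1, r1, p1⟩ := key I hI
  obtain ⟨f2, r2, p2⟩ := key J hJ
  obtain ⟨b', c', hc'⟩ := exists_chart (k := k) (B := B) (I.comap π)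
  obtain ⟨b'', c'', hc''⟩ := exists_chart (k := k) (B := B) (J.comap π)
  refine ⟨_, _, b', b'', c', c'', p1, p2, ?_, ?_⟩
  · rw [r1, r2, hsum, hrank]
  · rw [hc', hc'', ← Ideal.comap_inf, hIJ]
    ext y
    rw [Ideal.mem_comap, Ideal.mem_bot]
    exact Ideal.Quotient.eq_zero_iff_mem.symm

/-- if the algebra is local then, over an algebraically closed field, every element is a constant up
to a nilpotent; the constant is integral over the ring of coordinates -/
lemma local_case [IsAlgClosed K] {b : Fin d → B} (c : Chart k b K)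
    (h : IsLocalRing ((K ⊗[k] B) ⧸ c.ideal)) (A : Subalgebra k K) (hA : ∀ x j, c.q x j ∈ A)
    (x : B) : ∃ a : K, IsIntegral A a ∧ c.L (((1 : K) ⊗ₜ[k] x - a ⊗ₜ[k] 1) ^ d) = 0 := by
  obtain ⟨hfin, hrank⟩ := finrank_chart c
  set Q := (K ⊗[k] B) ⧸ c.ideal with hQ
  let π : K ⊗[k] B →ₐ[K] Q := Ideal.Quotient.mkₐ K c.ideal
  have hart : IsArtinianRing Q := IsArtinianRing.of_finite K Q
  -- the residue field
  have hint : Algebra.IsIntegral K (IsLocalRing.ResidueField Q) := by
    have : Module.Finite K (IsLocalRing.ResidueField Q) :=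
      Module.Finite.of_surjective (Ideal.Quotient.mkₐ K (IsLocalRing.maximalIdeal Q)).toLinearMap
        Ideal.Quotient.mk_surjective
    infer_instance
  have hbij : Function.Bijective (algebraMap K (IsLocalRing.ResidueField Q)) :=
    IsAlgClosed.algebraMap_bijective_of_isIntegral
  obtain ⟨a, ha⟩ := hbij.2 (IsLocalRing.residue Q (π (1 ⊗ₜ x)))
  have hnil : IsNilpotent (π (1 ⊗ₜ x) - algebraMap K Q a) := by
    have h1 : π (1 ⊗ₜ x) - algebraMap K Q a ∈ IsLocalRing.maximalIdeal Q := by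
      rw [← IsLocalRing.residue_eq_zero_iff, map_sub, ← ha, sub_eq_zero]
      rfl
    have h2 := IsArtinianRing.isNilpotent_jacobson_bot (R := Q)
    rw [IsLocalRing.jacobson_eq_maximalIdeal ⊥ bot_ne_top] at h2
    obtain ⟨n, hn⟩ := h2
    exact ⟨n, by
      have := Ideal.pow_mem_pow h1 n
      rw [hn] at this
      exact this⟩
  -- multiplication by the element
  have hnilE : IsNilpotent (LinearMap.mulLeft K (π (1 ⊗ₜ x) - algebraMap K Q a)) := by
    obtain ⟨n, hn⟩ := hnil
    refine ⟨n, ?_⟩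
    rw [LinearMap.pow_mulLeft, hn]
    exact LinearMap.mulLeft_zero_eq_zero K Q
  have hpow : (π (1 ⊗ₜ x) - algebraMap K Q a) ^ d = 0 := by
    have h1 := (LinearMap.mulLeft K (π (1 ⊗ₜ x) - algebraMap K Q a)).aeval_self_charpoly
    rw [hnilE.charpoly_eq_X_pow_finrank, hrank] at h1
    simp only [map_pow, Polynomial.aeval_X] at h1
    rw [LinearMap.pow_mulLeft] at h1
    have h2 := congrArg (fun f => f 1) h1
    simpa using h2
  refine ⟨a, ?_, ?_⟩
  · -- the matrix of the multiplication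
    let M : Matrix (Fin d) (Fin d) A := Matrix.of fun i j => ⟨c.q (b i * x) j, hA _ _⟩
    let M' : Matrix (Fin d) (Fin d) K := M.map (algebraMap A K)
    have hM' : ∀ i j, M' i j = c.q (b i * x) j := fun i j => rfl
    refine ⟨M.charpoly, M.charpoly_monic, ?_⟩
    have h1 : Polynomial.eval₂ (algebraMap A K) a M.charpoly = M'.charpoly.eval a := by
      rw [Matrix.charpoly_map, Polynomial.eval_map]
    rw [h1, Matrix.eval_charpoly]
    by_contra hdet
    have hu : IsUnit (Matrix.scalar (Fin d) a - M').det := isUnit_iff_ne_zero.2 hdet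
    -- then the element would be a unit
    have hLz : ∀ v : Fin d → K, Matrix.vecMul v (Matrix.scalar (Fin d) a - M') =
        - c.L (Chart.expand K b v * ((1 : K) ⊗ₜ[k] x - a ⊗ₜ[k] 1)) := by
      intro v
      have e1 : c.L (Chart.expand K b v * ((1 : K) ⊗ₜ[k] x)) = Matrix.vecMul v M' := by
        rw [Chart.expand_apply, Finset.sum_mul, map_sum]
        ext j
        simp [Matrix.vecMul, dotProduct, hM']
      have e2 : c.L (Chart.expand K b v * (a ⊗ₜ[k] (1 : B))) = a • v := by
        have : Chart.expand K b v * (a ⊗ₜ[k] (1 : B)) = a • Chart.expand K b v := by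
          rw [Algebra.smul_def, mul_comm]
          rfl
        rw [this, map_smul, Chart.L_expand]
      rw [mul_sub, map_sub, e1, e2, Matrix.vecMul_sub]
      simp [Matrix.scalar_apply]
    obtain ⟨w, hw⟩ : ∃ w : Fin d → K, Matrix.vecMul w (Matrix.scalar (Fin d) a - M') = c.L 1 :=
      ⟨Matrix.vecMul (c.L 1) (Matrix.scalar (Fin d) a - M')⁻¹, by
        rw [Matrix.vecMul_vecMul, Matrix.nonsing_inv_mul _ hu, Matrix.vecMul_one]⟩
    rw [hLz] at hw
    have h2 : (1 : K ⊗[k] B) + Chart.expand K b w * ((1 : K) ⊗ₜ[k] x - a ⊗ₜ[k] 1) ∈ c.ideal := by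
      rw [Chart.mem_ideal, map_add, ← hw]
      simp
    have h3 : (1 : Q) + π (Chart.expand K b w) * (π (1 ⊗ₜ x) - algebraMap K Q a) = 0 := by
      have h4 : π ((1 : K ⊗[k] B) + Chart.expand K b w * ((1 : K) ⊗ₜ[k] x - a ⊗ₜ[k] 1)) = 0 :=
        Ideal.Quotient.eq_zero_iff_mem.2 h2
      have h5 : π (a ⊗ₜ[k] (1 : B)) = algebraMap K Q a := by
        have : (a ⊗ₜ[k] (1 : B)) = algebraMap K (K ⊗[k] B) a := rfl
        rw [this, AlgHom.commutes]
      rw [map_add, map_one, map_mul, map_sub, h5] at h4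
      exact h4
    have h6 : IsUnit (1 : Q) := isUnit_one
    have h7 : IsNilpotent (1 : Q) := by
      have h8 : (1 : Q) = - (π (Chart.expand K b w) * (π (1 ⊗ₜ x) - algebraMap K Q a)) := by
        rw [eq_neg_iff_add_eq_zero]
        exact h3
      rw [h8]
      exact (Commute.isNilpotent_mul_left (Commute.all _ _) hnil).neg
    exact (h7.isUnit_one_sub).ne_zero (by simp)
  · rw [← Chart.mem_ideal]
    have h1 : π (((1 : K) ⊗ₜ[k] x - a ⊗ₜ[k] 1) ^ d) = 0 := by
      have h5 : π (a ⊗ₜ[k] (1 : B)) = algebraMap K Q a := by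
        have : (a ⊗ₜ[k] (1 : B)) = algebraMap K (K ⊗[k] B) a := rfl
        rw [this, AlgHom.commutes]
      rw [map_pow, map_sub, h5]
      exact hpow
    exact Ideal.Quotient.eq_zero_iff_mem.1 h1

end split

end Pool.Agent.R836.Elem
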