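import Mathlib
import Pool.Agent.R836.Elem2

set_option autoImplicit false

open scoped TensorProduct
open CategoryTheory AlgebraicGeometry

universe u

namespace Pool.Agent.R836.Elem

open Pool.Agent.Helper226

section special

variable {k : Type u} [Field k] {B : Type u} [CommRing B] [Algebra k B] {d : ℕ}

/-- if an ideal over an algebraically closed field is supported at one point then so are its
specializations -/
lemma special_local [IsAlgClosed k] {b : Fin d → B} {A : Type u} [CommRing A] [Algebra k A]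
    (C : Chart k b A) {L : Type u} [Field L] [IsAlgClosed L] [Algebra k L] (φ : A →ₐ[k] L)
    (ψ : A →ₐ[k] k) (hle : RingHom.ker φ ≤ RingHom.ker ψ)
    (hloc : IsLocalRing ((L ⊗[k] B) ⧸ (C.map φ).ideal)) :
    ∃ v : B → k, ∀ x : B, (x - algebraMap k B (v x)) ^ d ∈ (C.map ψ).ker := by
  set A1 : Subalgebra k L := φ.range with hA1
  have hvals : ∀ x j, (C.map φ).q x j ∈ A1 := fun x j => ⟨C.q x j, rfl⟩
  choose a ha1 ha2 using local_case (C.map φ) hloc A1 hvals
  let A2 : Subalgebra A1 L := Algebra.adjoin A1 (Set.range a)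
  have hint : Algebra.IsIntegral A1 A2 := Algebra.IsIntegral.adjoin (by
    rintro _ ⟨x, rfl⟩
    exact ha1 x)
  -- the homomorphism from the first ring
  have hsurj : Function.Surjective φ.rangeRestrict := φ.rangeRestrict_surjective
  let P1 : Ideal A1 := (RingHom.ker ψ).map φ.rangeRestrict
  have hker1 : RingHom.ker φ.rangeRestrict ≤ RingHom.ker ψ := by
    intro y hy
    apply hle
    rw [RingHom.mem_ker] at hy ⊢
    exact congrArg Subtype.val hy
  have hψs : Function.Surjective ψ := fun a => ⟨algebraMap k _ a, ψ.commutes a⟩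
  have hψm : (RingHom.ker ψ).IsMaximal := RingHom.ker_isMaximal_of_surjective ψ hψs
  have hψp : (RingHom.ker ψ).IsPrime := hψm.isPrime
  have hP1 : P1.IsPrime := Ideal.map_isPrime_of_surjective hsurj hker1
  have hcomap : P1.comap φ.rangeRestrict = RingHom.ker ψ := by
    have h0 := Ideal.comap_map_of_surjective φ.rangeRestrict hsurj (RingHom.ker ψ)
    refine h0.trans ?_
    apply le_antisymm
    · apply sup_le le_rfl
      exact hker1
    · exact le_sup_left
  obtain ⟨Q, hQp, hQ⟩ := Ideal.exists_ideal_over_prime_of_isIntegral_of_isDomain (S := A2) P1 (by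
    rw [(RingHom.injective_iff_ker_eq_bot _).1 (FaithfulSMul.algebraMap_injective A1 A2)]
    exact bot_le)
  -- the quotient is the field itself
  have hk : Algebra.IsIntegral k (A2 ⧸ Q) := by
    constructor
    intro y
    obtain ⟨y, rfl⟩ := Ideal.Quotient.mk_surjective y
    obtain ⟨p, hp1, hp2⟩ := hint.isIntegral y
    -- replace the coefficients by constants
    have hconst : ∀ z : A1, ∃ t : k, Ideal.Quotient.mk Q (algebraMap A1 A2 z) =
        algebraMap k (A2 ⧸ Q) t := by
      intro z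
      obtain ⟨w, hw⟩ := hsurj z
      refine ⟨ψ w, ?_⟩
      have h1 : w - algebraMap k A (ψ w) ∈ RingHom.ker ψ := by
        rw [RingHom.mem_ker, map_sub, AlgHom.commutes]
        simp
      rw [← hcomap, Ideal.mem_comap, map_sub, AlgHom.commutes, hw, ← hQ, Ideal.mem_comap,
        map_sub] at h1
      have h2 := Ideal.Quotient.eq.2 h1
      rw [h2]
      rfl
    have hcomp : ∀ t : A1, (Ideal.Quotient.mk Q).comp (algebraMap A1 A2) t ∈
        (algebraMap k (A2 ⧸ Q)).range := by
      intro t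
      obtain ⟨s, hs⟩ := hconst t
      exact ⟨s, hs.symm⟩
    have h3 : (algebraMap k (A2 ⧸ Q)).range.subtype.IsIntegralElem (Ideal.Quotient.mk Q y) := by
      refine ⟨p.map (((Ideal.Quotient.mk Q).comp (algebraMap A1 A2)).codRestrict _ hcomp),
        hp1.map _, ?_⟩
      rw [Polynomial.eval₂_map]
      have h4 : ((algebraMap k (A2 ⧸ Q)).range.subtype).comp
          (((Ideal.Quotient.mk Q).comp (algebraMap A1 A2)).codRestrict _ hcomp) =
          (Ideal.Quotient.mk Q).comp (algebraMap A1 A2) := by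
        ext t
        rfl
      rw [h4, ← Polynomial.hom_eval₂, hp2, map_zero]
    obtain ⟨q, hq1, hq2⟩ := h3
    have h5 : Function.Surjective (algebraMap k (A2 ⧸ Q)).rangeRestrict :=
      RingHom.rangeRestrict_surjective _
    obtain ⟨q', hq'1, hq'2, hq'3⟩ := Polynomial.lifts_and_degree_eq_and_monic
      (f := (algebraMap k (A2 ⧸ Q)).rangeRestrict) (p := q) (by
        rw [Polynomial.lifts_iff_coeff_lifts]
        intro n
        exact h5 _) hq1
    refine ⟨q', hq'3, ?_⟩
    rw [← hq'1, Polynomial.eval₂_map] at hq2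
    exact hq2
  have hbij : Function.Bijective (algebraMap k (A2 ⧸ Q)) :=
    IsAlgClosed.algebraMap_bijective_of_isIntegral
  let e : k ≃ₐ[k] (A2 ⧸ Q) := AlgEquiv.ofBijective (Algebra.ofId k _) hbij
  let θ : A2 →ₐ[k] k := (e.symm : (A2 ⧸ Q) →ₐ[k] k).comp (Ideal.Quotient.mkₐ k Q)
  let φ2 : A →ₐ[k] A2 := (IsScalarTower.toAlgHom k A1 A2).comp φ.rangeRestrict
  have hθφ : θ.comp φ2 = ψ := by
    ext w
    have h1 : w - algebraMap k A (ψ w) ∈ RingHom.ker ψ := by
      rw [RingHom.mem_ker, map_sub, AlgHom.commutes]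
      simp
    have h2 : φ2 (w - algebraMap k A (ψ w)) ∈ Q := by
      rw [← hcomap, ← hQ] at h1
      exact h1
    have h3 : θ (φ2 (w - algebraMap k A (ψ w))) = 0 := by
      have h4 : Ideal.Quotient.mkₐ k Q (φ2 (w - algebraMap k A (ψ w))) = 0 :=
        Ideal.Quotient.eq_zero_iff_mem.2 h2
      simp only [θ, AlgHom.comp_apply]
      rw [h4, map_zero]
    rw [map_sub, map_sub, AlgHom.commutes, AlgHom.commutes, sub_eq_zero] at h3
    exact h3
  let ι2 : A2 →ₐ[k] L := A2.val.restrictScalars k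
  have hι : ι2.comp φ2 = φ := by
    ext w
    rfl
  let a' : B → A2 := fun x => ⟨a x, Algebra.subset_adjoin ⟨x, rfl⟩⟩
  refine ⟨fun x => θ (a' x), fun x => ?_⟩
  have h1 : (C.map φ2).L (((1 : A2) ⊗ₜ[k] x - a' x ⊗ₜ[k] 1) ^ d) = 0 := by
    ext j
    have h2 := ha2 x
    rw [← hι, ← Chart.map_map] at h2
    have h3 : (((1 : L) ⊗ₜ[k] x - a x ⊗ₜ[k] 1) ^ d : L ⊗[k] B) =
        bc B ι2 (((1 : A2) ⊗ₜ[k] x - a' x ⊗ₜ[k] 1) ^ d) := by
      rw [map_pow, map_sub]
      simp only [Algebra.TensorProduct.map_tmul, map_one, AlgHom.coe_id, id_eq]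
      rfl
    rw [h3] at h2
    have h4 := congrFun h2 j
    rw [Chart.map_L] at h4
    have hinj : Function.Injective ι2 := Subtype.val_injective
    have h5 : ι2 ((C.map φ2).L (((1 : A2) ⊗ₜ[k] x - a' x ⊗ₜ[k] 1) ^ d) j) = ι2 0 := by
      rw [h4, map_zero]
      rfl
    exact congrArg Subtype.val (hinj h5)
  have h5 : (C.map ψ).L (((1 : k) ⊗ₜ[k] x - θ (a' x) ⊗ₜ[k] 1) ^ d) = 0 := by
    rw [← hθφ, ← Chart.map_map]
    have h3 : (((1 : k) ⊗ₜ[k] x - θ (a' x) ⊗ₜ[k] 1) ^ d : k ⊗[k] B) =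
        bc B θ (((1 : A2) ⊗ₜ[k] x - a' x ⊗ₜ[k] 1) ^ d) := by
      rw [map_pow, map_sub]
      simp only [Algebra.TensorProduct.map_tmul, map_one, AlgHom.coe_id, id_eq]
    rw [h3]
    ext j
    rw [Chart.map_L, h1]
    simp
  rw [Chart.mem_ker]
  have h6 : (((1 : k) ⊗ₜ[k] x - θ (a' x) ⊗ₜ[k] 1) ^ d : k ⊗[k] B) =
      (1 : k) ⊗ₜ[k] ((x - algebraMap k B (θ (a' x))) ^ d) := by
    have h7 : (θ (a' x) ⊗ₜ[k] (1 : B) : k ⊗[k] B) = (1 : k) ⊗ₜ[k] algebraMap k B (θ (a' x)) := by
      rw [Algebra.algebraMap_eq_smul_one, ← TensorProduct.smul_tmul, smul_eq_mul, mul_one]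
    rw [h7, ← TensorProduct.tmul_sub, Algebra.TensorProduct.tmul_pow, one_pow]
  rw [h6, Chart.L_tmul, one_smul] at h5
  exact h5

/-- hence the radical of the specialization is a maximal ideal -/
lemma radical_maximal {I : Ideal B} (hI : I ≠ ⊤) (v : B → k)
    (h : ∀ x : B, (x - algebraMap k B (v x)) ^ d ∈ I) : I.radical.IsMaximal := by
  have h1 : I.radical ≠ ⊤ := by
    intro h2
    rw [Ideal.radical_eq_top] at h2
    exact hI h2
  rw [Ideal.isMaximal_iff]
  refine ⟨fun h2 => h1 ((Ideal.eq_top_iff_one _).2 h2), ?_⟩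
  intro J x hJ hx hxJ
  have h3 : x - algebraMap k B (v x) ∈ I.radical := ⟨d, h x⟩
  have h4 : algebraMap k B (v x) ∈ J := by
    have := J.sub_mem hxJ (hJ h3)
    rwa [sub_sub_cancel] at this
  have h5 : v x ≠ 0 := by
    intro h6
    rw [h6, map_zero, sub_zero] at h3
    exact hx h3
  have h6 : (1 : B) = algebraMap k B (v x)⁻¹ * algebraMap k B (v x) := by
    rw [← map_mul, inv_mul_cancel₀ h5, map_one]
  rw [h6]
  exact J.mul_mem_left _ h4

end special

end Pool.Agent.R836.Elem
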