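import Mathlib
import Pool.Agent.R836.Elem3

set_option autoImplicit false

open scoped TensorProduct
open CategoryTheory AlgebraicGeometry

universe u

namespace Pool.Agent.R836.Elem

open Pool.Agent.Helper226

section scheme

variable {k : Type u} [Field k] {B : Type u} [CommRing B] [Algebra k B] {d : ℕ}

/-- a geometric point at a given point of the Hilbert scheme -/
lemma exists_geom_point (η : HilbS k B d) : ∃ (L : Type u) (_ : Field L) (_ : IsAlgClosed L)
    (_ : Algebra k L) (ψ : Spec (CommRingCat.of L) ⟶ HilbS k B d),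
    ψ ≫ HilbS.str k B d = Spec.map (CommRingCat.ofHom (algebraMap k L)) ∧ ∀ y, ψ y = η := by
  let κ := (HilbS k B d).residueField η
  let L := AlgebraicClosure κ
  let ψ : Spec (CommRingCat.of L) ⟶ HilbS k B d :=
    Spec.map (CommRingCat.ofHom (algebraMap κ L)) ≫ (HilbS k B d).fromSpecResidueField η
  obtain ⟨f, hf⟩ := Spec.map_surjective (ψ ≫ HilbS.str k B d)
  let : Algebra k L := f.hom.toAlgebra
  refine ⟨L, inferInstance, inferInstance, inferInstance, ψ, ?_, ?_⟩
  · rw [← hf]
    rfl
  · intro y
    have h1 : ψ y ∈ Set.range ((HilbS k B d).fromSpecResidueField η) := by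
      change (Spec.map (CommRingCat.ofHom (algebraMap κ L)) ≫
        (HilbS k B d).fromSpecResidueField η) y ∈ _
      rw [Scheme.Hom.comp_apply]
      exact ⟨_, rfl⟩
    rw [Scheme.range_fromSpecResidueField] at h1
    exact h1

lemma clf_uc_map {b : Fin d → B} {R : Type u} [CommRing R] [Algebra k R] (φ : AR k b →ₐ[k] R) :
    clf ((uc k b).map φ) = φ :=
  hom_ext_uc (uc_map_clf _)

/-- points with values in a field that lie in a chart -/
lemma exists_chart_mor {L : Type u} [Field L] [Algebra k L]
    (ψ : Spec (CommRingCat.of L) ⟶ HilbS k B d)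
    (hψ : ψ ≫ HilbS.str k B d = Spec.map (CommRingCat.ofHom (algebraMap k L))) (b : Fin d → B)
    (hr : ∀ y, ψ y ∈ Set.range (chartι k (Idx.single b))) : ∃ c : Chart k b L, mor c = ψ := by
  have hsub : Set.range ψ ⊆ Set.range (chartι k (Idx.single b)) := by
    rintro _ ⟨y, rfl⟩
    exact hr y
  obtain ⟨f, hf⟩ := Spec.map_surjective (IsOpenImmersion.lift (chartι k (Idx.single b)) ψ hsub)
  have hfac := IsOpenImmersion.lift_fac (chartι k (Idx.single b)) ψ hsub
  rw [← hf] at hfac
  have hcomm : (f.hom : AR k b →+* L).comp (algebraMap k (AR k b)) = algebraMap k L := by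
    have h1 : Spec.map f ≫ Spec.map (CommRingCat.ofHom (algebraMap k (AR k b))) =
        Spec.map (CommRingCat.ofHom (algebraMap k L)) := by
      rw [← hψ, ← hfac, Category.assoc]
      congr 1
      exact (chartι_str k (Idx.single b)).symm
    rw [← Spec.map_comp] at h1
    have h2 := Spec.map_injective h1
    exact congrArg CommRingCat.Hom.hom h2
  let φ : AR k b →ₐ[k] L := { (f.hom : AR k b →+* L) with
    commutes' := fun r => RingHom.congr_fun hcomm r }
  refine ⟨(uc k b).map φ, ?_⟩
  unfold mor
  rw [clf_uc_map]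
  exact hfac

lemma ideal_eq_of_mor_eq {L : Type u} [Field L] [Algebra k L] {b b' : Fin d → B}
    (c : Chart k b L) (c' : Chart k b' L) (h : mor c = mor c') : c.ideal = c'.ideal :=
  Classifies.injective k (locBas_of_isBas ⟨c, rfl⟩) (locBas_of_isBas ⟨c', rfl⟩)
    (classifies_mor c) (h ▸ classifies_mor c')

lemma ker_le_of_specializes {L K : Type u} [Field L] [Algebra k L] [Field K] [Algebra k K]
    {b : Fin d → B} (c : Chart k b L) (c' : Chart k b K) (y : Spec (CommRingCat.of L))
    (y' : Spec (CommRingCat.of K)) (h : mor c y ⤳ mor c' y') :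
    RingHom.ker (clf c) ≤ RingHom.ker (clf c') := by
  unfold mor at h
  rw [Scheme.Hom.comp_apply, Scheme.Hom.comp_apply,
    (chartι k (Idx.single b)).isOpenEmbedding.isInducing.specializes_iff] at h
  have h1 := (PrimeSpectrum.le_iff_specializes _ _).2 h
  have e1 : (Spec.map (CommRingCat.ofHom (clf c).toRingHom) y).asIdeal = RingHom.ker (clf c) := by
    have h2 : y.asIdeal = ⊥ := by
      have : y.asIdeal.IsPrime := y.isPrime
      exact (Ideal.eq_bot_or_top y.asIdeal).resolve_right this.ne_top
    have h3 : (Spec.map (CommRingCat.ofHom (clf c).toRingHom) y).asIdeal =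
      Ideal.comap (clf c).toRingHom y.asIdeal := rfl
    rw [h3, h2]
    rfl
  have e2 : (Spec.map (CommRingCat.ofHom (clf c').toRingHom) y').asIdeal =
      RingHom.ker (clf c') := by
    have h2 : y'.asIdeal = ⊥ := by
      have : y'.asIdeal.IsPrime := y'.isPrime
      exact (Ideal.eq_bot_or_top y'.asIdeal).resolve_right this.ne_top
    have h3 : (Spec.map (CommRingCat.ofHom (clf c').toRingHom) y').asIdeal =
      Ideal.comap (clf c').toRingHom y'.asIdeal := rfl
    rw [h3, h2]
    rfl
  rw [← e1, ← e2]
  exact h1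

/-- A set of points of a Hilbert scheme of points is elementary if all closed subschemes
parametrised by its closed points are supported at a single point. -/
def IsElementary (𝓗 : HilbertScheme k B d) (Z : Set 𝓗.H) : Prop :=
  ∀ f : PointsOver k 𝓗.H 𝓗.s k, Set.range f.1 ⊆ Z → (𝓗.idealOf f).radical.IsMaximal

lemma idealOf_mor {b : Fin d → B} (c : Chart k b k)
    (f : PointsOver k (hilb k B d).H (hilb k B d).s k) (hf : f.1 = mor c) :
    (hilb k B d).idealOf f = c.ker := by
  have h1 : f = ⟨mor c, mor_str c⟩ := Subtype.ext hf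
  rw [h1]
  unfold HilbertScheme.idealOf Chart.ker
  have : ((hilb k B d).Φ k ⟨mor c, mor_str c⟩).1 = c.ideal := homEquiv_mor c
  rw [this]

lemma ker_ne_top {b : Fin d → B} (c : Chart k b k) (hd : 1 ≤ d) : c.ker ≠ ⊤ := by
  intro h
  have h1 : b ⟨0, hd⟩ ∈ c.ker := by rw [h]; trivial
  rw [Chart.mem_ker, c.q_b] at h1
  have := congrFun h1 ⟨0, hd⟩
  simp at this

/-- the recursion for the dimensions of the Hilbert schemes without elementary components -/
theorem step [IsAlgClosed k] (d : ℕ) (hd : 1 ≤ d) (C : ℕ)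
    (hno : ∀ Z ∈ irreducibleComponents (hilb k B d).H, ¬ IsElementary (hilb k B d) Z)
    (hN : ∀ a, 1 ≤ a → a < d → ∀ (K : Type u) [Field K] [Algebra k K] (b : Fin a → B)
      (c : Chart k b K), rk k (vals c) ≤ (C * a : ℕ))
    (K : Type u) [Field K] [Algebra k K] (b : Fin d → B) (c : Chart k b K) :
    rk k (vals c) ≤ (C * d : ℕ) := by
  let y : Spec (CommRingCat.of K) := (⟨⊥, Ideal.isPrime_bot⟩ : PrimeSpectrum K)
  -- a component through the point
  let Z : Set (HilbS k B d) := irreducibleComponent (mor c y)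
  have hZ : Z ∈ irreducibleComponents (hilb k B d).H :=
    irreducibleComponent_mem_irreducibleComponents _
  have hyZ : mor c y ∈ Z := mem_irreducibleComponent
  obtain ⟨η, hη⟩ := QuasiSober.sober hZ.1 (isClosed_of_mem_irreducibleComponents Z hZ)
  have hs1 : η ⤳ mor c y := hη.specializes hyZ
  -- a closed point which is not local
  have hno' := hno Z hZ
  unfold IsElementary at hno'
  push Not at hno'
  obtain ⟨f, hfZ, hf⟩ := hno'
  obtain ⟨b0, c0, h1, -⟩ := exists_chart_of_field f
  rw [idealOf_mor c0 f h1] at hf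
  let y0 : Spec (CommRingCat.of k) := (⟨⊥, Ideal.isPrime_bot⟩ : PrimeSpectrum k)
  have hy0Z : mor c0 y0 ∈ Z := by
    rw [← h1]
    exact hfZ ⟨y0, rfl⟩
  have hs0 : η ⤳ mor c0 y0 := hη.specializes hy0Z
  -- the geometric generic point
  obtain ⟨L, _, _, _, ψ, hψ, hψη⟩ := exists_geom_point η
  have hin : ∀ {K' : Type u} [Field K'] [Algebra k K'] {b' : Fin d → B} (c' : Chart k b' K')
      (y' : Spec (CommRingCat.of K')), η ⤳ mor c' y' →
      ∀ z, ψ z ∈ Set.range (chartι k (Idx.single b')) := by
    intro K' _ _ b' c' y' hs z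
    rw [hψη]
    apply hs.mem_open (chartι k (Idx.single b')).isOpenEmbedding.isOpen_range
    unfold mor
    rw [Scheme.Hom.comp_apply]
    exact ⟨_, rfl⟩
  obtain ⟨cL, hcL⟩ := exists_chart_mor ψ hψ b (hin c y hs1)
  obtain ⟨cL0, hcL0⟩ := exists_chart_mor ψ hψ b0 (hin c0 y0 hs0)
  have hid : cL.ideal = cL0.ideal := ideal_eq_of_mor_eq _ _ (hcL.trans hcL0.symm)
  let z : Spec (CommRingCat.of L) := (⟨⊥, Ideal.isPrime_bot⟩ : PrimeSpectrum L)
  have hk1 : RingHom.ker (clf cL) ≤ RingHom.ker (clf c) :=
    ker_le_of_specializes cL c z y (by rw [hcL, hψη]; exact hs1)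
  have hk0 : RingHom.ker (clf cL0) ≤ RingHom.ker (clf c0) :=
    ker_le_of_specializes cL0 c0 z y0 (by rw [hcL0, hψη]; exact hs0)
  -- the algebra at the generic point is not local
  have hnl : ¬ IsLocalRing ((L ⊗[k] B) ⧸ cL.ideal) := by
    intro hloc
    have hloc' : IsLocalRing ((L ⊗[k] B) ⧸ ((uc k b0).map (clf cL0)).ideal) := by
      rw [uc_map_clf, ← hid]
      exact hloc
    obtain ⟨v, hv⟩ := special_local (uc k b0) (clf cL0) (clf c0) hk0 hloc'
    rw [uc_map_clf] at hv
    exact hf (radical_maximal (ker_ne_top c0 hd) v hv)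
  have hnt : Nontrivial ((L ⊗[k] B) ⧸ cL.ideal) := by
    have h2 := (finrank_chart cL).2
    exact Module.nontrivial_of_finrank_pos (R := L) (by rw [h2]; exact hd)
  obtain ⟨d', d'', b', b'', c', c'', hd', hd'', hsum, hinf⟩ := exists_decomp cL hnt hnl
  have hrk : rk k (vals cL) ≤ (C * d : ℕ) := by
    refine (rk_inf_le cL c' c'' hsum hinf).trans ?_
    refine (add_le_add (hN d' hd' (by omega) L b' c') (hN d'' hd'' (by omega) L b'' c'')).trans ?_
    rw [← hsum, mul_add]
    push_cast
    exact le_rfl
  refine le_trans ?_ hrk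
  rw [← uc_map_clf c, ← uc_map_clf cL, vals_map, vals_map]
  exact rk_specialize (clf cL) (clf c) hk1 _

/-- the a priori bound -/
theorem rk_le_square {n : ℕ} (a : ℕ) (K : Type u) [Field K] [Algebra k K]
    (b : Fin a → MvPolynomial (Fin n) k) (c : Chart k b K) :
    rk k (vals c) ≤ ((n * a + 1) * a : ℕ) := by
  classical
  let S : Set K := (Set.range fun p : (Fin n × Fin a) × Fin a =>
    c.q (b p.1.2 * MvPolynomial.X p.1.1) p.2) ∪ Set.range fun j : Fin a => c.q 1 j
  have hS : S.encard ≤ ((n * a + 1) * a : ℕ) := by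
    refine (Set.encard_union_le _ _).trans ?_
    have h1 : (Set.range fun p : (Fin n × Fin a) × Fin a =>
        c.q (b p.1.2 * MvPolynomial.X p.1.1) p.2).encard ≤ ((n * a) * a : ℕ) := by
      rw [← Set.image_univ]
      refine (Set.encard_image_le _ _).trans ?_
      rw [Set.encard_univ, ENat.card_eq_coe_fintype_card, Fintype.card_prod, Fintype.card_prod,
        Fintype.card_fin, Fintype.card_fin]
    have h2 : (Set.range fun j : Fin a => c.q 1 j).encard ≤ (a : ℕ) := by
      rw [← Set.image_univ]
      refine (Set.encard_image_le _ _).trans ?_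
      rw [Set.encard_univ, ENat.card_eq_coe_fintype_card, Fintype.card_fin]
    refine (add_le_add h1 h2).trans ?_
    push_cast
    exact le_of_eq (by ring)
  refine le_trans ?_ ((rk_le_encard (k := k) S).trans hS)
  apply rk_le_of_Lf
  rintro z ⟨x, j, rfl⟩
  have hA : ∀ x : MvPolynomial (Fin n) k, (∀ j, c.q x j ∈ Lf k S) ∧
      ∀ i j, c.q (b i * x) j ∈ Lf k S := by
    have hconst : ∀ r : k, algebraMap k K r ∈ Lf k S := fun r =>
      Lf_of_adjoin (Subalgebra.algebraMap_mem _ r)
    intro x
    induction x using MvPolynomial.induction_on with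
    | C r =>
      constructor
      · intro j
        have h1 : c.q (MvPolynomial.C r) j = algebraMap k K r * c.q 1 j := by
          have : (MvPolynomial.C r : MvPolynomial (Fin n) k) = r • 1 := by
            rw [MvPolynomial.smul_eq_C_mul, mul_one]
          rw [this, map_smul, Pi.smul_apply, Algebra.smul_def]
        rw [h1]
        exact (Lf k S).mul_mem (hconst r) (Lf_of_mem (Or.inr ⟨j, rfl⟩))
      · intro i j
        have h1 : c.q (b i * MvPolynomial.C r) j = algebraMap k K r * c.q (b i) j := by
          rw [mul_comm, ← MvPolynomial.smul_eq_C_mul, map_smul, Pi.smul_apply, Algebra.smul_def]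
        rw [h1, c.q_b]
        refine (Lf k S).mul_mem (hconst r) ?_
        rw [Pi.single_apply]
        split_ifs
        · exact (Lf k S).one_mem
        · exact (Lf k S).zero_mem
    | add p q hp hq =>
      constructor
      · intro j
        rw [map_add, Pi.add_apply]
        exact (Lf k S).add_mem (hp.1 j) (hq.1 j)
      · intro i j
        rw [mul_add, map_add, Pi.add_apply]
        exact (Lf k S).add_mem (hp.2 i j) (hq.2 i j)
    | mul_X p m hp =>
      have hX : ∀ i j, c.q (b i * MvPolynomial.X m) j ∈ Lf k S := fun i j =>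
        Lf_of_mem (Or.inl ⟨((m, i), j), rfl⟩)
      constructor
      · intro j
        rw [c.q_mul, Finset.sum_apply]
        refine (Lf k S).sum_mem fun i _ => ?_
        rw [Pi.smul_apply, smul_eq_mul]
        exact (Lf k S).mul_mem (hp.1 i) (hX i j)
      · intro i j
        rw [← mul_assoc, c.q_mul, Finset.sum_apply]
        refine (Lf k S).sum_mem fun l _ => ?_
        rw [Pi.smul_apply, smul_eq_mul]
        exact (Lf k S).mul_mem (hp.2 i l) (hX l j)
  exact (hA x).1 j

/-- if there are no elementary components for large lengths then the dimension grows linearly -/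
theorem linear_growth [IsAlgClosed k] (n R : ℕ)
    (hno : ∀ d, R < d → ∀ Z ∈ irreducibleComponents (hilb k (MvPolynomial (Fin n) k) d).H,
      ¬ IsElementary (hilb k (MvPolynomial (Fin n) k) d) Z) (d : ℕ) (hd : 1 ≤ d)
    (K : Type u) [Field K] [Algebra k K] (b : Fin d → MvPolynomial (Fin n) k) (c : Chart k b K) :
    rk k (vals c) ≤ ((n * R + 1) * d : ℕ) := by
  induction d using Nat.strong_induction_on generalizing K with
  | _ d ih =>
    rcases le_or_gt d R with h | h
    · refine (rk_le_square d K b c).trans ?_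
      exact_mod_cast Nat.mul_le_mul_right d (by nlinarith)
    · exact step d hd (n * R + 1) (hno d h)
        (fun a ha had K _ _ b c => ih a had ha K b c) K b c

end scheme

end Pool.Agent.R836.Elem
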