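import Mathlib
import Pool.Agent.R836.Elem4
import Pool.Agent.Y97.VC3.Inst
import Pool.Agent.Helper413.Gal.Uniq

set_option autoImplicit false

open scoped TensorProduct
open CategoryTheory AlgebraicGeometry MvPolynomial

universe u

namespace Pool.Agent.R836.Elem

open Pool.Agent.Helper226 Pool.Agent.Helper226.SData Pool.Agent.Y97.VC3

section family

variable (k : Type u) [Field k]

lemma mul_le_rk {n s d : ℕ} (D : SData n s d) (z : Fin n) (hz : ∀ j, D.e j ≠ Finsupp.single z s)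
    (hs : 1 ≤ s) : ∃ (K : Type u) (_ : Field K) (_ : Algebra k K) (c : Chart k (mb k D.e) K),
      ((Fintype.card (NI D) * Fintype.card (EI D) : ℕ) : ℕ∞) ≤ rk k (vals c) := by
  let R := MvPolynomial (ULift.{u} (NI D × EI D)) k
  let K := FractionRing R
  let φ : R →ₐ[k] K := IsScalarTower.toAlgHom k R K
  refine ⟨K, inferInstance, inferInstance, (fam D k z hz hs).map φ, ?_⟩
  have hφ : Function.Injective φ := IsFractionRing.injective R K
  have h1 : AlgebraicIndependent k (fun p : ULift.{u} (NI D × EI D) => φ (X p)) :=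
    (MvPolynomial.algebraicIndependent_X (ULift.{u} (NI D × EI D)) k).map' hφ
  have h2 := card_le_rk (fun p : ULift.{u} (NI D × EI D) => φ (X p)) h1
    (vals ((fam D k z hz hs).map φ)) (by
      rintro ⟨⟨i, j⟩⟩
      refine ⟨monomial i.1.1 1, j.1, ?_⟩
      rw [Chart.map_q]
      congr 1
      have hdeg : i.1.1.degree = s := (mem_Mi s _).1 i.1.2
      rw [fam, hchart_q, if_pos hdeg.le, top_not D _ _ i.2]
      dsimp only
      rw [if_pos j.2, genA_eq])
  refine le_trans (le_of_eq ?_) h2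
  rw [Fintype.card_ulift, Fintype.card_prod]

end family

section main

variable (k : Type u) [Field k]

lemma numbers (R m : ℕ) (hm : m = 6 * R + 6) :
    (3 * R + 1) * ((4 * m + 2).choose 3 + 4 * m ^ 2) <
      ((4 * m + 2).choose 2 - 4 * m ^ 2) * (4 * m ^ 2) := by
  have e1 : (4 * m + 2).choose 3 * 3 = (4 * m + 2).choose 2 * (4 * m) := by
    have := Nat.choose_succ_right_eq (4 * m + 2) 2
    simpa using this
  have e2 : (4 * m + 2).choose 2 * 2 = (4 * m + 2) * (4 * m + 1) := by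
    have := Nat.choose_succ_right_eq (4 * m + 2) 1
    simpa using this
  have e3 : (4 * m + 2).choose 2 = 8 * m ^ 2 + 6 * m + 1 := by nlinarith
  have e4 : (4 * m + 2).choose 2 - 4 * m ^ 2 = 4 * m ^ 2 + 6 * m + 1 := by omega
  rw [e4]
  rw [e3] at e1
  have h1 : 1 ≤ m := by omega
  have h2 : (4 * m + 2).choose 3 + 4 * m ^ 2 ≤ 24 * m ^ 3 := by
    have h3 : (4 * m + 2).choose 3 * 3 ≤ 60 * m ^ 3 := by
      rw [e1]
      nlinarith [Nat.mul_le_mul h1 h1, Nat.mul_le_mul (Nat.mul_le_mul h1 h1) h1, sq_nonneg m,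
        mul_self_nonneg m, Nat.mul_le_mul (Nat.le_refl (m * m)) h1]
    nlinarith [Nat.mul_le_mul (Nat.le_refl (m * m)) h1]
  calc (3 * R + 1) * ((4 * m + 2).choose 3 + 4 * m ^ 2) ≤ (3 * R + 1) * (24 * m ^ 3) :=
        Nat.mul_le_mul_left _ h2
    _ ≤ 12 * m * m ^ 3 := by
        rw [hm]
        nlinarith [Nat.zero_le ((6 * R + 6) ^ 3)]
    _ < (4 * m ^ 2 + 6 * m + 1) * (4 * m ^ 2) := by
        have h0 : 0 < m := h1
        nlinarith [Nat.mul_le_mul (Nat.le_refl (m * m)) h1, pow_pos h0 3, pow_pos h0 4]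

theorem exists_elementary_hilb [IsAlgClosed k] (R : ℕ) : ∃ d, R < d ∧
    ∃ Z ∈ irreducibleComponents (hilb k (MvPolynomial (Fin 3) k) d).H,
      IsElementary (hilb k (MvPolynomial (Fin 3) k) d) Z := by
  by_contra hcon
  push Not at hcon
  set m := 6 * R + 6 with hm
  obtain ⟨T, hT, hTc⟩ := Finset.exists_subset_card_eq (le_card_Od (4 * m) (4 * m ^ 2) (by
    nlinarith))
  have hs : 1 ≤ 4 * m := by omega
  have hd : (4 * m + 2).choose 3 + T.card = (4 * m + 2).choose 3 + 4 * m ^ 2 := by rw [hTc]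
  obtain ⟨K, _, _, c, hc⟩ := mul_le_rk k (DD hT hd) 2 (DD_z hT hd hs) hs
  have h1 := linear_growth (k := k) 3 R hcon _ (by nlinarith) K _ c
  have h2 := hc.trans h1
  have h3 := card_NI (DD hT hd) (by norm_num)
  rw [card_EI, hTc] at h3
  rw [card_EI, hTc] at h2
  have h4 : Fintype.card (NI (DD hT hd)) = (4 * m + 2).choose 2 - 4 * m ^ 2 := by
    have h5 : (4 * m + 3 - 1).choose (3 - 1) = (4 * m + 2).choose 2 := rfl
    rw [h5] at h3
    omega
  rw [h4] at h2
  have h6 : ((4 * m + 2).choose 2 - 4 * m ^ 2) * (4 * m ^ 2) ≤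
      (3 * R + 1) * ((4 * m + 2).choose 3 + 4 * m ^ 2) := by exact_mod_cast h2
  exact absurd (numbers R m hm) (by omega)

end main

section transport

open Pool.Agent.Helper413.Gal

lemma image_component {X Y : Scheme.{u}} (e : X ⟶ Y) [IsIso e] (Z : Set X)
    (hZ : Z ∈ irreducibleComponents X) : e '' Z ∈ irreducibleComponents Y := by
  have h1 : e '' Z = (inv e) ⁻¹' Z := by
    ext y
    constructor
    · rintro ⟨x, hx, rfl⟩
      have : (inv e) (e x) = x := by
        rw [← Scheme.Hom.comp_apply, IsIso.hom_inv_id]; rfl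
      rw [Set.mem_preimage, this]
      exact hx
    · intro hy
      refine ⟨_, hy, ?_⟩
      rw [← Scheme.Hom.comp_apply, IsIso.inv_hom_id]; rfl
  rw [h1]
  refine preimage_mem_irreducibleComponents hZ (inv e).isOpenEmbedding ?_
  obtain ⟨z, hz⟩ := hZ.1.1
  refine ⟨z, hz, e z, ?_⟩
  rw [← Scheme.Hom.comp_apply, IsIso.hom_inv_id]; rfl

variable {k : Type u} [Field k] {B : Type u} [CommRing B] [Algebra k B] {d : ℕ}

/-- elementary components do not depend on the choice of the Hilbert scheme -/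
lemma isElementary_image (𝓗₁ 𝓗₂ : HilbertScheme k B d) (Z : Set 𝓗₁.H)
    (h : IsElementary 𝓗₁ Z) : IsElementary 𝓗₂ (tmor 𝓗₁ 𝓗₂ '' Z) := by
  intro f hf
  have h1 : Set.range (tr 𝓗₂ 𝓗₁ k f).1 ⊆ Z := by
    rintro _ ⟨y, rfl⟩
    obtain ⟨z, hz, hzy⟩ := hf ⟨y, rfl⟩
    rw [tr_val, Scheme.Hom.comp_apply, ← hzy, ← Scheme.Hom.comp_apply, tmor_tmor]
    exact hz
  have h2 := h (tr 𝓗₂ 𝓗₁ k f) h1
  have h3 : 𝓗₁.idealOf (tr 𝓗₂ 𝓗₁ k f) = 𝓗₂.idealOf f := by
    unfold HilbertScheme.idealOf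
    rw [Φ_tr]
  rwa [h3] at h2

theorem exists_elementary (k : Type u) [Field k] [IsAlgClosed k] (R : ℕ) : ∃ r, R < r ∧
    ∀ 𝓗 : HilbertScheme k (MvPolynomial (Fin 3) k) r,
      ∃ C ∈ irreducibleComponents 𝓗.H, IsElementary 𝓗 C := by
  obtain ⟨r, hr, Z, hZ, hel⟩ := exists_elementary_hilb k R
  exact ⟨r, hr, fun 𝓗 => ⟨_, image_component (tmor (hilb k _ r) 𝓗) Z hZ,
    isElementary_image _ _ Z hel⟩⟩

end transport

end Pool.Agent.R836.Elem
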