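import Mathlib
import Pool.Agent.R836.Elem5

set_option autoImplicit false

open scoped TensorProduct
open CategoryTheory AlgebraicGeometry MvPolynomial

universe u

namespace Pool.Agent.R836.Elem

open Pool.Agent.Helper226 Pool.Agent.Helper413.Gal

variable {k : Type u} [Field k] [IsAlgClosed k] {B : Type u} [CommRing B] [Algebra k B] {d : ℕ}

/-- closed points come from charts over the field -/
lemma exists_chart_of_closed [Algebra.FiniteType k B] (z : HilbS k B d)
    (hz : IsClosed ({z} : Set (HilbS k B d))) :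
    ∃ (b : Fin d → B) (c : Chart k b k), Set.range (mor c) ⊆ {z} := by
  obtain ⟨L, y, hy⟩ := chartι_surj (k := k) (B := B) (d := d) z
  obtain ⟨b, hb⟩ := L.ne
  have hle : L ≤ Idx.single b := by
    change (Idx.single b).s ⊆ L.s
    intro b' hb'
    have h1 : b' = b := by simpa [Idx.single] using hb'
    rw [h1]
    exact hb
  have h1 : ∃ z' : Spec (CommRingCat.of (AR k b)), chartι k (Idx.single b) z' = z := by
    rw [← map_chartι k hle, Scheme.Hom.comp_apply] at hy
    exact ⟨_, hy⟩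
  obtain ⟨z', hz'⟩ := h1
  have hcl : IsClosed ({z'} : Set (Spec (CommRingCat.of (AR k b)))) := by
    have h2 : ({z'} : Set (Spec (CommRingCat.of (AR k b)))) =
        chartι k (Idx.single b) ⁻¹' {z} := by
      ext w
      rw [Set.mem_singleton_iff, Set.mem_preimage, Set.mem_singleton_iff, ← hz']
      exact ((chartι k (Idx.single b)).isOpenEmbedding.injective.eq_iff).symm
    rw [h2]
    exact hz.preimage (chartι k (Idx.single b)).continuous
  have hmax : z'.asIdeal.IsMaximal := (PrimeSpectrum.isClosed_singleton_iff_isMaximal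
    (z' : PrimeSpectrum (AR k b))).1 hcl
  have hft : Algebra.FiniteType k (AR k b) := univ_finiteType (k := k) (Idx.single b)
  let _ : Field (AR k b ⧸ z'.asIdeal) := Ideal.Quotient.field _
  have hft2 : Algebra.FiniteType k (AR k b ⧸ z'.asIdeal) :=
    Algebra.FiniteType.of_surjective (Ideal.Quotient.mkₐ k z'.asIdeal)
      (Ideal.Quotient.mkₐ_surjective k _)
  have hfin : Module.Finite k (AR k b ⧸ z'.asIdeal) := finite_of_finite_type_of_isJacobsonRing k _
  have hbij : Function.Bijective (algebraMap k (AR k b ⧸ z'.asIdeal)) :=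
    IsAlgClosed.algebraMap_bijective_of_isIntegral
  let e : k ≃ₐ[k] (AR k b ⧸ z'.asIdeal) := AlgEquiv.ofBijective (Algebra.ofId k _) hbij
  let φ : AR k b →ₐ[k] k := (e.symm : (AR k b ⧸ z'.asIdeal) →ₐ[k] k).comp
    (Ideal.Quotient.mkₐ k z'.asIdeal)
  have hker : RingHom.ker φ = z'.asIdeal := by
    ext x
    rw [RingHom.mem_ker]
    change e.symm (Ideal.Quotient.mk _ x) = 0 ↔ _
    rw [EmbeddingLike.map_eq_zero_iff, Ideal.Quotient.eq_zero_iff_mem]
  refine ⟨b, (uc k b).map φ, ?_⟩
  rintro _ ⟨w, rfl⟩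
  rw [Set.mem_singleton_iff, ← hz']
  unfold mor
  rw [Scheme.Hom.comp_apply]
  congr 1
  apply PrimeSpectrum.ext
  rw [clf_uc_map]
  rw [range_specMap_field, hker]

/-- nonempty closed sets contain rational points -/
lemma exists_point [Algebra.FiniteType k B] (Z : Set (HilbS k B d)) (hZ : IsClosed Z)
    (hne : Z.Nonempty) :
    ∃ f : PointsOver k (hilb k B d).H (hilb k B d).s k, Set.range f.1 ⊆ Z := by
  have hJ : JacobsonSpace (HilbS k B d) := LocallyOfFiniteType.jacobsonSpace (HilbS.str k B d)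
  have h1 : (Z ∩ closedPoints (HilbS k B d)).Nonempty := by
    rw [← closure_nonempty_iff, JacobsonSpace.closure_inter_closedPoints hZ]
    exact hne
  obtain ⟨z, hz1, hz2⟩ := h1
  obtain ⟨b, c, hc⟩ := exists_chart_of_closed z hz2
  exact ⟨⟨mor c, mor_str c⟩, hc.trans (Set.singleton_subset_iff.2 hz1)⟩

lemma exists_point' [Algebra.FiniteType k B] (𝓗 : HilbertScheme k B d) (Z : Set 𝓗.H)
    (hZ : Z ∈ irreducibleComponents 𝓗.H) : ∃ f : PointsOver k 𝓗.H 𝓗.s k, Set.range f.1 ⊆ Z := by
  have h1 := image_component (tmor 𝓗 (hilb k B d)) Z hZ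
  obtain ⟨f, hf⟩ := exists_point _ (isClosed_of_mem_irreducibleComponents _ h1) h1.1.1
  refine ⟨tr (hilb k B d) 𝓗 k f, ?_⟩
  rintro _ ⟨y, rfl⟩
  obtain ⟨z, hz, hzy⟩ := hf ⟨y, rfl⟩
  rw [tr_val, Scheme.Hom.comp_apply, ← hzy, ← Scheme.Hom.comp_apply, tmor_tmor]
  exact hz

end Pool.Agent.R836.Elem
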